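import Mathlib
import Pool.Agent.Results.MP_a52643_an.PositiveDensity

/-!
# Positive density on both sides, with explicit constants
-/

set_option autoImplicit false

open MeasureTheory Filter Topology
open scoped ENNReal ContDiff

namespace Pool.Agent.U766.LL

open Pool.Agent.Results.MP_a52643_an.AbsoluteContinuity (lapl LocL2 Test)
open Pool.Agent.Results.MP_a52643_an.PositiveDensity (mass Beyond Beyond_pos Beyond_neg)
open Pool.Agent.Y139.PD

variable {Ω : Set ℂ} {ρ : ℂ → ℝ} {lam : ℕ → ℝ} {u : ℕ → ℂ → ℝ} {φ : ℂ → ℝ}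

lemma ind_law (H : Hyp Ω ρ lam u) (n : ℕ) {A : Set ℝ} (hA : MeasurableSet A) :
    law Ω φ ρ (u n) A = ∫ z, {z | z ∈ Ω ∧ u n z ∈ A}.indicator (fun z => φ z * ρ z) z := by
  unfold law
  rw [integral_indicator (meas_pre H.oΩ (H.su n).continuousOn hA)]

lemma ind_int (H : Hyp Ω ρ lam u) (hφ : Test Ω φ) (n : ℕ) {A : Set ℝ} (hA : MeasurableSet A) :
    Integrable ({z | z ∈ Ω ∧ u n z ∈ A}.indicator (fun z => φ z * ρ z)) :=
  (q_int hφ H.sρ).indicator (meas_pre H.oΩ (H.su n).continuousOn hA)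

lemma side (H : Hyp Ω ρ lam u) (hφ : Test Ω φ) (n : ℕ) {m V δ η : ℝ} (m0 : 0 < m) (V0 : 0 < V)
    (δ0 : 0 < δ) (η0 : 0 < η) (hm : ∫ z, φ z * (ρ z * u n z ^ 2) ≤ m) (hV : ∫ z, φ z * ρ z ≤ V)
    (hη : η ≤ law Ω φ ρ (u n) {x | δ ≤ |x|}) (h0 : -(δ * η / 4) ≤ ∫ z, φ z * (ρ z * u n z)) :
    (δ * η) ^ 2 / (16 * m) ≤ law Ω φ ρ (u n) (Set.Ici (δ * η / (8 * V))) := by
  set b := δ * η / (8 * V) with hb
  set s := δ * η / (8 * m) with hs
  have b0 : 0 < b := by positivity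
  have s0 : 0 < s := by positivity
  have mT : MeasurableSet {x : ℝ | δ ≤ |x|} := measurableSet_le measurable_const measurable_id.abs
  have q0 : ∀ z, 0 ≤ φ z * ρ z := by
    intro z
    by_cases hz : z ∈ Ω
    · exact mul_nonneg (hφ.2.2.2 z) (H.pρ z hz).le
    · rw [image_eq_zero_of_notMem_tsupport fun h => hz (hφ.2.2.1 h), zero_mul]
  have qz : ∀ z, z ∉ Ω → φ z = 0 := fun z hz => image_eq_zero_of_notMem_tsupport fun h => hz (hφ.2.2.1 h)
  have i1 := int_co H hφ (continuous_abs) n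
  have i0 := int_co H hφ (continuous_id) n
  have i2 := int_co H hφ (continuous_pow 2) n
  simp only [id] at i0
  have iq := q_int hφ H.sρ
  have h1 : δ * law Ω φ ρ (u n) {x | δ ≤ |x|} ≤ ∫ z, φ z * (ρ z * |u n z|) := by
    rw [ind_law H n mT, ← integral_const_mul]
    refine integral_mono ((ind_int H hφ n mT).const_mul δ) i1 fun z => ?_
    show δ * Set.indicator _ _ z ≤ φ z * (ρ z * |u n z|)
    by_cases hz : z ∈ {z | z ∈ Ω ∧ u n z ∈ {x : ℝ | δ ≤ |x|}}
    · rw [Set.indicator_of_mem hz]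
      have := mul_le_mul_of_nonneg_left (show δ ≤ |u n z| from hz.2) (q0 z)
      linarith
    · rw [Set.indicator_of_notMem hz, mul_zero]
      have := mul_nonneg (q0 z) (abs_nonneg (u n z))
      linarith
  have h2 : ∫ z, ((1 / 2) * (φ z * (ρ z * |u n z|)) + (1 / 2) * (φ z * (ρ z * u n z))) ≤
      ∫ z, (b * (φ z * ρ z) + s * (φ z * (ρ z * u n z ^ 2)) +
        (1 / (4 * s)) * {z | z ∈ Ω ∧ u n z ∈ Set.Ici b}.indicator (fun z => φ z * ρ z) z) := by
    refine integral_mono ((i1.const_mul _).add (i0.const_mul _))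
      (((iq.const_mul b).add (i2.const_mul s)).add ((ind_int H hφ n measurableSet_Ici).const_mul _)) fun z => ?_
    show (1 / 2) * (φ z * (ρ z * |u n z|)) + (1 / 2) * (φ z * (ρ z * u n z)) ≤
      b * (φ z * ρ z) + s * (φ z * (ρ z * u n z ^ 2)) + (1 / (4 * s)) * Set.indicator _ _ z
    by_cases hz : z ∈ {z | z ∈ Ω ∧ u n z ∈ Set.Ici b}
    · rw [Set.indicator_of_mem hz]
      have hu : b ≤ u n z := hz.2
      rw [abs_of_nonneg (b0.le.trans hu)]
      have e1 : u n z ≤ b + s * u n z ^ 2 + 1 / (4 * s) := by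
        have : 0 ≤ s * (u n z - 1 / (2 * s)) ^ 2 := by positivity
        have e : s * (u n z - 1 / (2 * s)) ^ 2 = s * u n z ^ 2 - u n z + 1 / (4 * s) := by
          field_simp
          ring
        linarith
      have := mul_le_mul_of_nonneg_left e1 (q0 z)
      linarith
    · rw [Set.indicator_of_notMem hz, mul_zero, add_zero]
      by_cases hzΩ : z ∈ Ω
      · have hu : u n z < b := by
          by_contra h
          exact hz ⟨hzΩ, not_lt.1 h⟩
        have e1 : (1 / 2) * |u n z| + (1 / 2) * u n z ≤ b + s * u n z ^ 2 := by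
          have : 0 ≤ s * u n z ^ 2 := by positivity
          rcases abs_cases (u n z) with h | h <;> linarith
        have := mul_le_mul_of_nonneg_left e1 (q0 z)
        linarith
      · rw [qz z hzΩ]
        simp
  have j1 : Integrable fun z => b * (φ z * ρ z) + s * (φ z * (ρ z * u n z ^ 2)) :=
    (iq.const_mul b).add (i2.const_mul s)
  rw [integral_add (i1.const_mul _) (i0.const_mul _),
    integral_add j1 ((ind_int H hφ n measurableSet_Ici).const_mul _),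
    integral_add (iq.const_mul b) (i2.const_mul s), integral_const_mul, integral_const_mul, integral_const_mul,
    integral_const_mul, integral_const_mul, ← ind_law H n measurableSet_Ici] at h2
  set L := law Ω φ ρ (u n) (Set.Ici b)
  have h3 : δ * η ≤ δ * law Ω φ ρ (u n) {x | δ ≤ |x|} := mul_le_mul_of_nonneg_left hη δ0.le
  have h4 : b * (∫ z, φ z * ρ z) ≤ δ * η / 8 := by
    have := mul_le_mul_of_nonneg_left hV b0.le
    have e : b * V = δ * η / 8 := by rw [hb]; field_simp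
    linarith
  have h5 : s * (∫ z, φ z * (ρ z * u n z ^ 2)) ≤ δ * η / 8 := by
    have := mul_le_mul_of_nonneg_left hm s0.le
    have e : s * m = δ * η / 8 := by rw [hs]; field_simp
    linarith
  have h6 : δ * η / 8 ≤ 1 / (4 * s) * L := by linarith
  have h7 : (δ * η) ^ 2 / (16 * m) = (4 * s) * (δ * η / 8) := by
    rw [hs]
    field_simp
    ring
  rw [h7]
  calc (4 * s) * (δ * η / 8) ≤ (4 * s) * (1 / (4 * s) * L) := mul_le_mul_of_nonneg_left h6 (by positivity)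
    _ = L := by field_simp

/-- **Positive density on both sides of zero.** -/
theorem both : ∃ C₀ : ℝ, 0 < C₀ ∧ ∀ (Ω : Set ℂ) (ρ : ℂ → ℝ) (lam : ℕ → ℝ) (u : ℕ → ℂ → ℝ), Hyp Ω ρ lam u →
    ∀ φ : ℂ → ℝ, Test Ω φ → ∀ m V δ η : ℝ, 0 < m → 0 < V → 0 < δ → 0 < η →
    (∀ᶠ n in atTop, ∫ z, φ z * (ρ z * u n z ^ 2) ≤ m) → ∫ z, φ z * ρ z ≤ V →
    (∀ᶠ n in atTop, η ≤ law Ω φ ρ (u n) {x | δ ≤ |x|}) →
    ∀ᶠ n in atTop, ∀ A : Set ℝ, MeasurableSet A → A ⊆ Set.Ioo (-(δ * η / (8 * V))) (δ * η / (8 * V)) →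
      (volume A).toReal * (δ * η / (8 * V) * ((δ * η) ^ 2 / (16 * m))) ^ 3 ≤ C₀ * m ^ 2 * law Ω φ ρ (u n) A := by
  obtain ⟨C, hC⟩ := Pool.Agent.Results.MP_a52643_an.PositiveDensity.result
  refine ⟨|C| + 1, by positivity, fun Ω ρ lam u H φ hφ m V δ η m0 V0 δ0 η0 hm hV hη => ?_⟩
  set b := δ * η / (8 * V) with hb
  set β := (δ * η) ^ 2 / (16 * m) with hβ
  have b0 : 0 < b := by positivity
  have β0 : 0 < β := by positivity
  have hpos := (hC Ω ρ lam u H.oΩ H.sρ H.pρ H.ll H.su H.eq H.bd φ hφ m m0 hm).1 (b * β) (by positivity)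
  have hS := S2 H hφ
  have hnear : ∀ᶠ n in atTop, |∫ z, φ z * (ρ z * u n z)| ≤ δ * η / 4 := by
    have h1 : Tendsto (fun n => |∫ z, φ z * (ρ z * u n z)|) atTop (𝓝 0) := by
      simpa using hS.abs
    exact h1.eventually (ge_mem_nhds (by positivity))
  filter_upwards [hpos, hm, hη, hnear] with n p1 p2 p3 p4 A mA hA
  have a1 := abs_le.1 p4
  have s1 := side H hφ n m0 V0 δ0 η0 p2 hV p3 a1.1
  have s2 : β ≤ law Ω φ ρ (u n) (Set.Iic (-b)) := by
    have h1 := side (u := fun n z => -u n z) H.neg hφ n m0 V0 δ0 η0 (by simpa only [neg_sq] using p2) hV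
      (by
        refine p3.trans (le_of_eq ?_)
        unfold law
        have : {z | z ∈ Ω ∧ u n z ∈ {x : ℝ | δ ≤ |x|}} = {z | z ∈ Ω ∧ -u n z ∈ {x : ℝ | δ ≤ |x|}} := by
          ext z
          show (z ∈ Ω ∧ δ ≤ |u n z|) ↔ (z ∈ Ω ∧ δ ≤ |-u n z|)
          rw [abs_neg]
        rw [this]) (by
        have e : ∫ z, φ z * (ρ z * -u n z) = -∫ z, φ z * (ρ z * u n z) := by
          rw [← integral_neg]
          congr 1
          funext z
          ring
        rw [e]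
        linarith [a1.2])
    refine h1.trans (le_of_eq ?_)
    unfold law
    have : {z | z ∈ Ω ∧ -u n z ∈ Set.Ici b} = {z | z ∈ Ω ∧ u n z ∈ Set.Iic (-b)} := by
      ext z
      show (z ∈ Ω ∧ b ≤ -u n z) ↔ (z ∈ Ω ∧ u n z ≤ -b)
      rw [le_neg]
    rw [this]
  have g1 : ∀ A : Set ℝ, MeasurableSet A → A ⊆ Set.Ioo 0 b →
      (volume A).toReal * (b * β) ^ 3 ≤ (|C| + 1) * m ^ 2 * law Ω φ ρ (u n) A := by
    intro A mA hA
    have l0 : 0 ≤ law Ω φ ρ (u n) A := law_nonneg H.oΩ (H.su n).continuousOn hφ H.pρ mA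
    have k1 : b * β ≤ |b| * mass Ω φ ρ (u n) (Beyond b) := by
      rw [Beyond_pos b0, abs_of_pos b0]
      exact mul_le_mul_of_nonneg_left s1 b0.le
    have h1 := p1 b A mA (by rw [Set.uIoo_of_lt b0]; exact hA) k1
    calc (volume A).toReal * (b * β) ^ 3 ≤ (volume A).toReal * (|b| * mass Ω φ ρ (u n) (Beyond b)) ^ 3 := by gcongr
      _ ≤ C * m ^ 2 * mass Ω φ ρ (u n) A := h1
      _ ≤ (|C| + 1) * m ^ 2 * law Ω φ ρ (u n) A := by
        show C * m ^ 2 * law Ω φ ρ (u n) A ≤ _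
        gcongr
        linarith [le_abs_self C]
  have g2 : ∀ A : Set ℝ, MeasurableSet A → A ⊆ Set.Ioo (-b) 0 →
      (volume A).toReal * (b * β) ^ 3 ≤ (|C| + 1) * m ^ 2 * law Ω φ ρ (u n) A := by
    intro A mA hA
    have l0 : 0 ≤ law Ω φ ρ (u n) A := law_nonneg H.oΩ (H.su n).continuousOn hφ H.pρ mA
    have nb : -b < 0 := by linarith
    have k1 : b * β ≤ |(-b)| * mass Ω φ ρ (u n) (Beyond (-b)) := by
      rw [Beyond_neg nb, abs_of_neg nb, neg_neg]
      exact mul_le_mul_of_nonneg_left s2 b0.le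
    have h1 := p1 (-b) A mA (by rw [Set.uIoo_of_gt nb]; exact hA) k1
    calc (volume A).toReal * (b * β) ^ 3
        ≤ (volume A).toReal * (|(-b)| * mass Ω φ ρ (u n) (Beyond (-b))) ^ 3 := by gcongr
      _ ≤ C * m ^ 2 * mass Ω φ ρ (u n) A := h1
      _ ≤ (|C| + 1) * m ^ 2 * law Ω φ ρ (u n) A := by
        show C * m ^ 2 * law Ω φ ρ (u n) A ≤ _
        gcongr
        linarith [le_abs_self C]
  have m1 : MeasurableSet (A ∩ Set.Ioo (-b) 0) := mA.inter measurableSet_Ioo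
  have m2 : MeasurableSet (A ∩ Set.Ioo 0 b) := mA.inter measurableSet_Ioo
  have q1 := g2 _ m1 Set.inter_subset_right
  have q2 := g1 _ m2 Set.inter_subset_right
  have hf1 : volume (A ∩ Set.Ioo (-b) 0) ≠ ⊤ :=
    ((measure_mono Set.inter_subset_right).trans_lt measure_Ioo_lt_top).ne
  have hf2 : volume (A ∩ Set.Ioo 0 b) ≠ ⊤ :=
    ((measure_mono Set.inter_subset_right).trans_lt measure_Ioo_lt_top).ne
  have v1 : (volume A).toReal ≤ (volume (A ∩ Set.Ioo (-b) 0)).toReal + (volume (A ∩ Set.Ioo 0 b)).toReal := by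
    rw [← ENNReal.toReal_add hf1 hf2]
    refine ENNReal.toReal_mono (ENNReal.add_ne_top.2 ⟨hf1, hf2⟩) ?_
    calc volume A ≤ volume ((A ∩ Set.Ioo (-b) 0) ∪ (A ∩ Set.Ioo 0 b) ∪ {0}) := by
          refine measure_mono fun x hx => ?_
          have h2 := hA hx
          rcases lt_trichotomy x 0 with h | h | h
          · exact Or.inl (Or.inl ⟨hx, h2.1, h⟩)
          · exact Or.inr h
          · exact Or.inl (Or.inr ⟨hx, h, h2.2⟩)
      _ ≤ volume ((A ∩ Set.Ioo (-b) 0) ∪ (A ∩ Set.Ioo 0 b)) + volume ({0} : Set ℝ) := measure_union_le _ _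
      _ ≤ (volume (A ∩ Set.Ioo (-b) 0) + volume (A ∩ Set.Ioo 0 b)) + 0 := by
          gcongr
          · exact measure_union_le _ _
          · simp
      _ = _ := add_zero _
  have v2 : law Ω φ ρ (u n) (A ∩ Set.Ioo (-b) 0) + law Ω φ ρ (u n) (A ∩ Set.Ioo 0 b) ≤ law Ω φ ρ (u n) A := by
    have l1 := law_nonneg H.oΩ (H.su n).continuousOn hφ H.pρ m1
    have l2 := law_nonneg H.oΩ (H.su n).continuousOn hφ H.pρ m2
    have l3 := law_nonneg H.oΩ (H.su n).continuousOn hφ H.pρ mA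
    rw [← ENNReal.ofReal_le_ofReal_iff l3, ENNReal.ofReal_add l1 l2,
      ← mu_law H.oΩ (H.su n).continuousOn hφ H.sρ H.pρ m1, ← mu_law H.oΩ (H.su n).continuousOn hφ H.sρ H.pρ m2,
      ← mu_law H.oΩ (H.su n).continuousOn hφ H.sρ H.pρ mA, ← measure_union _ m2]
    · exact measure_mono (Set.union_subset Set.inter_subset_left Set.inter_subset_left)
    · rw [Set.disjoint_left]
      rintro x ⟨-, h1⟩ ⟨-, h2⟩
      exact absurd h1.2 (not_lt.2 h2.1.le)
  calc (volume A).toReal * (b * β) ^ 3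
      ≤ ((volume (A ∩ Set.Ioo (-b) 0)).toReal + (volume (A ∩ Set.Ioo 0 b)).toReal) * (b * β) ^ 3 := by gcongr
    _ ≤ (|C| + 1) * m ^ 2 * law Ω φ ρ (u n) (A ∩ Set.Ioo (-b) 0) +
        (|C| + 1) * m ^ 2 * law Ω φ ρ (u n) (A ∩ Set.Ioo 0 b) := by linarith
    _ = (|C| + 1) * m ^ 2 * (law Ω φ ρ (u n) (A ∩ Set.Ioo (-b) 0) + law Ω φ ρ (u n) (A ∩ Set.Ioo 0 b)) := by ring
    _ ≤ (|C| + 1) * m ^ 2 * law Ω φ ρ (u n) A := by gcongr

end Pool.Agent.U766.LL
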