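import Mathlib
import Pool.Agent.U766.SN.Int

/-!
# Integrals of increasing functions of the absolute value: the fundamental domain
-/

set_option autoImplicit false

open UpperHalfPlane MeasureTheory
open scoped MatrixGroups ENNReal Modular

namespace Pool.Agent.U766.LL

open Pool.Agent.N889.SN (mp)
open Pool.Agent.U766.SN

/-- **Integrals**, general target. -/
theorem integ' {K : ℕ → ℝ} {k : ℕ} {C : ℝ} {Ω S : Set ℍ} (hΩ : MeasurableSet Ω) (hS : MeasurableSet S)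
    (h : Ctl K k C ((fun z : ℍ => (z : ℂ)) '' Ω) ((fun z : ℍ => (z : ℂ)) '' S)) {U : ℂ → ℂ} (hU : Good K U)
    (hm : Measurable fun z : ℍ => ‖U z‖) (φ : ℝ → ℝ≥0∞) (hφ : Monotone φ) (hφ0 : φ 0 = 0) :
    ∫⁻ z in Ω, φ ‖U (z : ℍ)‖ ≤ (F k).card * ∫⁻ z in S, φ (C * ‖U (z : ℍ)‖) := by
  classical
  have hφm : Measurable φ := hφ.measurable
  let ψ : ℍ → ℝ≥0∞ := S.indicator fun z => φ (C * ‖U z‖)
  have hψ : Measurable ψ := (hφm.comp (hm.const_mul C)).indicator hS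
  have hpt : ∀ z ∈ Ω, φ ‖U z‖ ≤ ∑ q ∈ F k, ψ (G q • z) := by
    intro z hz
    set E := (F k).filter fun q => G q • z ∈ S with hE'
    rcases E.eq_empty_or_nonempty with hE | hE
    · have h1 := h U hU z ⟨z, hz, rfl⟩ 0 le_rfl (fun w hw hr => by
        obtain ⟨v, hv, rfl⟩ := hw
        obtain ⟨q, hq, hqv⟩ := exists_G hr
        exfalso
        have : q ∈ E := by
          rw [hE', Finset.mem_filter]
          refine ⟨hq, ?_⟩
          rw [UpperHalfPlane.ext hqv]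
          exact hv
        rw [hE] at this
        simp at this)
      rw [mul_zero] at h1
      rw [le_antisymm h1 (norm_nonneg _), hφ0]
      exact bot_le
    · obtain ⟨q₀, hq₀, hmax⟩ := E.exists_max_image (fun q => ‖U ((G q • z : ℍ) : ℂ)‖) hE
      have h1 := h U hU z ⟨z, hz, rfl⟩ ‖U ((G q₀ • z : ℍ) : ℂ)‖ (norm_nonneg _) (fun w hw hr => by
        obtain ⟨v, hv, rfl⟩ := hw
        obtain ⟨q, hq, hqv⟩ := exists_G hr
        have hqS : q ∈ E := by
          rw [hE', Finset.mem_filter]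
          refine ⟨hq, ?_⟩
          rw [UpperHalfPlane.ext hqv]
          exact hv
        have := hmax q hqS
        simp only [hqv] at this
        exact this)
      rw [hE', Finset.mem_filter] at hq₀
      calc φ ‖U z‖ ≤ φ (C * ‖U ((G q₀ • z : ℍ) : ℂ)‖) := hφ h1
        _ = ψ (G q₀ • z) := by
          show _ = S.indicator _ _
          rw [Set.indicator_of_mem hq₀.2]
        _ ≤ ∑ q ∈ F k, ψ (G q • z) := Finset.single_le_sum (f := fun q => ψ (G q • z)) (fun _ _ => bot_le) hq₀.1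
  calc ∫⁻ z in Ω, φ ‖U (z : ℍ)‖ ≤ ∫⁻ z in Ω, ∑ q ∈ F k, ψ (G q • z) := setLIntegral_mono' hΩ hpt
    _ ≤ ∫⁻ z, ∑ q ∈ F k, ψ (G q • z) := setLIntegral_le_lintegral _ _
    _ = ∑ q ∈ F k, ∫⁻ z, ψ (G q • z) := lintegral_finsetSum _ fun q _ => hψ.comp (mp (G q)).measurable
    _ = ∑ q ∈ F k, ∫⁻ z, ψ z := Finset.sum_congr rfl fun q _ => (mp (G q)).lintegral_comp hψ
    _ = (F k).card * ∫⁻ z in S, φ (C * ‖U (z : ℍ)‖) := by
      rw [Finset.sum_const, nsmul_eq_mul, lintegral_indicator hS]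

/-- compact sets are controlled by the fundamental domain -/
theorem toFd (K : ℕ → ℝ) (hK : ∀ p, 0 ≤ K p) (Ω : Set ℂ) (hΩ : IsCompact Ω) (hΩ' : Ω ⊆ {z : ℂ | 0 < z.im}) :
    ∃ C : ℝ, ∃ k : ℕ, 0 < C ∧ Ctl K k C Ω ((fun z : ℍ => (z : ℂ)) '' 𝒟) := by
  obtain ⟨C, Y, k, hC, h⟩ := cusp K hK 1 Ω hΩ hΩ'
  obtain ⟨R, hR⟩ := norm_bound hΩ hΩ' k
  set l : ℕ := ⌈|R|⌉₊ + 1 with hl
  refine ⟨C, 2 * k * l, hC, fun U hU z hz m hm hB => h U hU z hz m hm fun w hw hzw => ?_⟩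
  have hz0 : 0 < z.im := hΩ' hz
  obtain ⟨hw1, hw2⟩ := hw
  have hw0 : 0 < w.im := by linarith
  have hround : |w.re - round w.re| ≤ 1 / 2 := abs_sub_round _
  have hwR : |w.re| ≤ R := (Complex.abs_re_le_norm w).trans (hR z hz w hzw)
  have hnl : |-round w.re| ≤ (l : ℤ) := by
    have h1 : |(round w.re : ℝ)| ≤ R + 1 / 2 := by
      have e1 : (round w.re : ℝ) = w.re - (w.re - round w.re) := by ring
      rw [e1]
      refine (abs_sub _ _).trans ?_
      linarith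
    have h2 : |R| ≤ ⌈|R|⌉₊ := Nat.le_ceil _
    have h3 : ((|-round w.re| : ℤ) : ℝ) ≤ ((l : ℤ) : ℝ) := by
      rw [Int.cast_abs, hl]
      push_cast
      rw [abs_neg]
      have := le_abs_self R
      linarith
    exact_mod_cast h3
  have e2 : U (w + ((-round w.re : ℤ) : ℂ)) = U w := hU.per.int _ hw0
  rw [← e2]
  have him : (w + ((-round w.re : ℤ) : ℂ)).im = w.im := by simp
  have hre : (w + ((-round w.re : ℤ) : ℂ)).re = w.re - round w.re := by simp [sub_eq_add_neg]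
  refine hB _ ⟨⟨w + ((-round w.re : ℤ) : ℂ), by rw [him]; exact hw0⟩, ?_, rfl⟩ ?_
  · refine ⟨?_, ?_⟩
    · show 1 ≤ Complex.normSq (w + ((-round w.re : ℤ) : ℂ))
      rw [Complex.normSq_apply, him]
      nlinarith [mul_self_nonneg (w + ((-round w.re : ℤ) : ℂ)).re]
    · show |(w + ((-round w.re : ℤ) : ℂ)).re| ≤ 1 / 2
      rw [hre]
      exact hround
  · refine (hzw.trans hz0 (Reach.int (k := l) (by omega) hnl w))

end Pool.Agent.U766.LL
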