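import Mathlib
import Pool.Agent.Results.MP_a52643_an.AbsoluteContinuity

/-!
# The upper half-plane as a subset of the complex plane
-/

set_option autoImplicit false

open UpperHalfPlane MeasureTheory Filter Topology
open scoped ENNReal ContDiff

namespace Pool.Agent.U766.LL

open Pool.Agent.Results.MP_a52643_an.AbsoluteContinuity (lapl LocL2 Test)

/-- the open half-plane -/
def HP : Set ℂ := {z : ℂ | 0 < z.im}

lemma isOpen_HP : IsOpen HP := isOpen_lt continuous_const Complex.continuous_im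

/-- the density -/
noncomputable def rho (z : ℂ) : ℝ := 1 / z.im ^ 2

lemma rho_pos {z : ℂ} (hz : z ∈ HP) : 0 < rho z := by
  have : 0 < z.im := hz
  unfold rho
  positivity

lemma rho_smooth : ContDiffOn ℝ ∞ rho HP := by
  unfold rho
  refine ContDiffOn.div contDiffOn_const ?_ fun z hz => (pow_pos (show 0 < z.im from hz) 2).ne'
  exact (Complex.imCLM.contDiff.pow 2).contDiffOn

lemma lint_set {S : Set ℍ} (hS : MeasurableSet S) (F : ℂ → ℝ≥0∞) (φ : ℍ → ℝ≥0∞) (hφ : Measurable φ)
    (h : ∀ z : ℍ, ENNReal.ofReal (rho z) * φ z = F z) :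
    ∫⁻ z in S, φ z = ∫⁻ z in (fun z : ℍ => (z : ℂ)) '' S, F z := by
  have hmp : MeasurePreserving UpperHalfPlane.coe (volume.comap UpperHalfPlane.coe)
      (volume.restrict (.range UpperHalfPlane.coe)) :=
    ⟨measurable_coe, by rw [measurableEmbedding_coe.map_comap]⟩
  have hm : Measurable fun z : ℍ => (((1 / NNReal.mk z.im z.im_pos.le : NNReal) ^ 2 : NNReal) : ℝ≥0∞) := by
    refine Measurable.coe_nnreal_ennreal (Continuous.measurable ?_)
    refine .pow (.div₀ continuous_const ?_ ?_) _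
    · exact UpperHalfPlane.continuous_im.subtype_mk _
    · exact fun x ↦ NNReal.ne_iff.mp x.im_ne_zero
  rw [volume_def, setLIntegral_withDensity_eq_setLIntegral_mul _ hm hφ hS]
  rw [← Set.inter_eq_self_of_subset_left (Set.image_subset_range UpperHalfPlane.coe S),
    ← Measure.restrict_restrict' measurableEmbedding_coe.measurableSet_range,
    ← hmp.setLIntegral_comp_emb measurableEmbedding_coe]
  refine lintegral_congr fun z => ?_
  show _ = F z
  rw [← h z, Pi.mul_apply]
  congr 1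
  have hz := z.im_pos
  rw [ENNReal.ofReal, ENNReal.coe_inj]
  ext
  unfold rho
  rw [Real.coe_toNNReal _ (by have := z.im_pos; rw [UpperHalfPlane.coe_im]; positivity)]
  simp

lemma deriv2 {f : ℂ → ℝ} (hf : ContDiffOn ℝ ∞ f HP) {z : ℂ} (hz : z ∈ HP) (v : ℂ) :
    deriv (deriv (fun s : ℝ => f (z + (s : ℂ) * v))) 0 = fderiv ℝ (fun w => fderiv ℝ f w v) z v := by
  have hline : ∀ s : ℝ, HasDerivAt (fun s : ℝ => z + (s : ℂ) * v) v s := by
    intro s
    have h1 : HasDerivAt (fun s : ℝ => (s : ℂ)) 1 s := Complex.ofRealCLM.hasDerivAt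
    have h2 := (h1.mul_const v).const_add z
    simpa using h2
  have hcont : Continuous fun s : ℝ => z + (s : ℂ) * v := by fun_prop
  have hnear : ∀ᶠ s : ℝ in 𝓝 0, z + (s : ℂ) * v ∈ HP := by
    have : z + ((0 : ℝ) : ℂ) * v ∈ HP := by simpa using hz
    exact hcont.continuousAt.eventually (isOpen_HP.mem_nhds this)
  have h1 : (deriv fun s : ℝ => f (z + (s : ℂ) * v)) =ᶠ[𝓝 0] fun s : ℝ => fderiv ℝ f (z + (s : ℂ) * v) v := by
    filter_upwards [hnear] with s hs
    have hd : DifferentiableAt ℝ f (z + (s : ℂ) * v) :=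
      (hf.differentiableOn (by simp)).differentiableAt (isOpen_HP.mem_nhds hs)
    exact (hd.hasFDerivAt.comp_hasDerivAt s (hline s)).deriv
  rw [h1.deriv_eq]
  have hg : DifferentiableAt ℝ (fun w => fderiv ℝ f w v) z := by
    have h2 : ContDiffOn ℝ ∞ (fderiv ℝ f) HP := hf.fderiv_of_isOpen isOpen_HP (by simp)
    have h3 : ContDiffOn ℝ ∞ (fun w => fderiv ℝ f w v) HP := h2.clm_apply contDiffOn_const
    exact (h3.differentiableOn (by simp)).differentiableAt (isOpen_HP.mem_nhds hz)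
  have hg' : HasFDerivAt (fun w => fderiv ℝ f w v) (fderiv ℝ (fun w => fderiv ℝ f w v) z) (z + ((0 : ℝ) : ℂ) * v) := by
    simpa using hg.hasFDerivAt
  exact (hg'.comp_hasDerivAt (0 : ℝ) (hline 0)).deriv

lemma lapl_eq {f : ℂ → ℝ} (hf : ContDiffOn ℝ ∞ f HP) {z : ℂ} (hz : z ∈ HP) :
    lapl f z = deriv (deriv (fun s : ℝ => f (z + (s : ℂ)))) 0 +
      deriv (deriv (fun s : ℝ => f (z + (s : ℂ) * Complex.I))) 0 := by
  have h1 := deriv2 hf hz 1
  simp only [mul_one] at h1
  rw [h1, deriv2 hf hz Complex.I]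
  rfl

end Pool.Agent.U766.LL
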