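import Mathlib
import Pool.Agent.Y139.PD.E
import Pool.Agent.U766.LL.Conv

/-!
# The area of the cusp, and laws as areas
-/

set_option autoImplicit false

open UpperHalfPlane MeasureTheory Filter Topology
open scoped ENNReal ContDiff

namespace Pool.Agent.U766.LL

open Pool.Agent.Results.MP_a52643_an.AbsoluteContinuity (lapl LocL2 Test)

lemma vol_eq {S : Set ℍ} (hS : MeasurableSet S) :
    volume S = ∫⁻ z in (fun z : ℍ => (z : ℂ)) '' S, ENNReal.ofReal (rho z) := by
  have h := lint_set hS (fun z => ENNReal.ofReal (rho z)) (fun _ => 1) measurable_const (fun z => by simp)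
  rw [← h]
  simp

/-- the area of the cusp -/
lemma vol_cusp {Y : ℝ} (hY : 0 < Y) : volume {z : ℍ | |z.re| ≤ 1 / 2 ∧ Y < z.im} ≤ ENNReal.ofReal (1 / Y) := by
  have hS : MeasurableSet {z : ℍ | |z.re| ≤ 1 / 2 ∧ Y < z.im} :=
    (measurableSet_le UpperHalfPlane.continuous_re.abs.measurable measurable_const).inter
      (measurableSet_lt measurable_const UpperHalfPlane.continuous_im.measurable)
  rw [vol_eq hS]
  have e1 : ∫⁻ z in (fun z : ℍ => (z : ℂ)) '' {z : ℍ | |z.re| ≤ 1 / 2 ∧ Y < z.im}, ENNReal.ofReal (rho z) ≤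
      ∫⁻ z : ℂ, (Set.Icc (-(1 / 2) : ℝ) (1 / 2)).indicator 1 z.re *
        (Set.Ioi Y).indicator (fun y => ENNReal.ofReal (1 / y ^ 2)) z.im := by
    rw [← lintegral_indicator (measurableEmbedding_coe.measurableSet_image.2 hS)]
    refine lintegral_mono fun z => ?_
    by_cases hz : z ∈ (fun z : ℍ => (z : ℂ)) '' {z : ℍ | |z.re| ≤ 1 / 2 ∧ Y < z.im}
    · rw [Set.indicator_of_mem hz]
      obtain ⟨w, ⟨h1, h2⟩, rfl⟩ := hz
      have h3 : (w : ℂ).re ∈ Set.Icc (-(1 / 2) : ℝ) (1 / 2) := ⟨(abs_le.1 h1).1, (abs_le.1 h1).2⟩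
      have h4 : (w : ℂ).im ∈ Set.Ioi Y := h2
      rw [Set.indicator_of_mem h3, Set.indicator_of_mem h4, Pi.one_apply, one_mul]
      rfl
    · rw [Set.indicator_of_notMem hz]
      exact bot_le
  refine e1.trans (le_of_eq ?_)
  have hm1 : Measurable ((Set.Icc (-(1 / 2) : ℝ) (1 / 2)).indicator (1 : ℝ → ℝ≥0∞)) :=
    measurable_one.indicator measurableSet_Icc
  have hm2 : Measurable ((Set.Ioi Y).indicator fun y : ℝ => ENNReal.ofReal (1 / y ^ 2)) := by
    refine Measurable.indicator ?_ measurableSet_Ioi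
    fun_prop
  have e2 := Complex.volume_preserving_equiv_real_prod.lintegral_comp
    (f := fun p : ℝ × ℝ => (Set.Icc (-(1 / 2) : ℝ) (1 / 2)).indicator 1 p.1 *
        (Set.Ioi Y).indicator (fun y => ENNReal.ofReal (1 / y ^ 2)) p.2)
    ((hm1.comp measurable_fst).mul (hm2.comp measurable_snd))
  have e3 : ∀ z : ℂ, (Complex.measurableEquivRealProd z) = (z.re, z.im) := fun z => rfl
  simp only [e3] at e2
  rw [e2, Measure.volume_eq_prod, lintegral_prod_mul hm1.aemeasurable hm2.aemeasurable,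
    lintegral_indicator_one measurableSet_Icc, Real.volume_Icc, lintegral_indicator measurableSet_Ioi]
  have i1 : IntegrableOn (fun y : ℝ => y ^ (-2 : ℝ)) (Set.Ioi Y) := integrableOn_Ioi_rpow_of_lt (by norm_num) hY
  have e4 : ∀ y ∈ Set.Ioi Y, ENNReal.ofReal (1 / y ^ 2) = ENNReal.ofReal (y ^ (-2 : ℝ)) := by
    intro y hy
    have hy0 : 0 < y := hY.trans hy
    rw [Real.rpow_neg hy0.le, one_div]
    norm_num
  rw [setLIntegral_congr_fun measurableSet_Ioi e4,
    ← ofReal_integral_eq_lintegral_ofReal i1 ((ae_restrict_iff' measurableSet_Ioi).2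
      (Eventually.of_forall fun y hy => Real.rpow_nonneg (hY.trans hy).le _)),
    integral_Ioi_rpow_of_lt (by norm_num) hY]
  norm_num
  rw [Real.rpow_neg_one]

open Pool.Agent.Y139.PD (law meas_pre q_int qn)

lemma law_le {φ f : ℂ → ℝ} (hf : ContinuousOn f HP) (hφ : Test HP φ) {D : Set ℍ} (hD : MeasurableSet D)
    (h1 : ∀ z, φ z ≤ 1) (hs : ∀ z, φ z ≠ 0 → z ∈ (fun z : ℍ => (z : ℂ)) '' D) {A : Set ℝ} (hA : MeasurableSet A) :
    ENNReal.ofReal (law HP φ rho f A) ≤ volume {z : ℍ | z ∈ D ∧ f z ∈ A} := by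
  have hfc : Continuous fun z : ℍ => f z :=
    hf.comp_continuous UpperHalfPlane.continuous_coe fun z => z.im_pos
  have hS : MeasurableSet {z : ℍ | z ∈ D ∧ f z ∈ A} := hD.inter (hfc.measurable hA)
  have hM := meas_pre isOpen_HP hf hA
  unfold law
  rw [vol_eq hS, ofReal_integral_eq_lintegral_ofReal (q_int hφ rho_smooth).integrableOn
    ((ae_restrict_iff' hM).2 (ae_of_all _ fun z hz => qn hφ (fun z hz => rho_pos hz) z hz.1)),
    ← lintegral_indicator hM, ← lintegral_indicator (measurableEmbedding_coe.measurableSet_image.2 hS)]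
  refine lintegral_mono fun z => ?_
  by_cases hz : z ∈ {z | z ∈ HP ∧ f z ∈ A}
  · rw [Set.indicator_of_mem hz]
    rcases eq_or_ne (φ z) 0 with h0 | h0
    · rw [h0]
      simp
    · obtain ⟨w, hw, hwz⟩ := hs z h0
      have hz2 : z ∈ (fun z : ℍ => (z : ℂ)) '' {z : ℍ | z ∈ D ∧ f z ∈ A} := by
        refine ⟨w, ⟨hw, ?_⟩, hwz⟩
        have hwz' : (w : ℂ) = z := hwz
        rw [hwz']
        exact hz.2
      rw [Set.indicator_of_mem hz2]
      refine ENNReal.ofReal_le_ofReal ?_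
      have := mul_le_mul_of_nonneg_right (h1 z) (rho_pos hz.1).le
      linarith
  · rw [Set.indicator_of_notMem hz]
    exact bot_le

lemma law_ge {φ f : ℂ → ℝ} (hf : ContinuousOn f HP) (hφ : Test HP φ) {D : Set ℍ} (hD : MeasurableSet D)
    (h1 : ∀ z ∈ D, φ (z : ℍ) = 1) {A : Set ℝ} (hA : MeasurableSet A) :
    volume {z : ℍ | z ∈ D ∧ f z ∈ A} ≤ ENNReal.ofReal (law HP φ rho f A) := by
  have hfc : Continuous fun z : ℍ => f z :=
    hf.comp_continuous UpperHalfPlane.continuous_coe fun z => z.im_pos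
  have hS : MeasurableSet {z : ℍ | z ∈ D ∧ f z ∈ A} := hD.inter (hfc.measurable hA)
  have hM := meas_pre isOpen_HP hf hA
  unfold law
  rw [vol_eq hS, ofReal_integral_eq_lintegral_ofReal (q_int hφ rho_smooth).integrableOn
    ((ae_restrict_iff' hM).2 (ae_of_all _ fun z hz => qn hφ (fun z hz => rho_pos hz) z hz.1)),
    ← lintegral_indicator hM, ← lintegral_indicator (measurableEmbedding_coe.measurableSet_image.2 hS)]
  refine lintegral_mono fun z => ?_
  by_cases hz : z ∈ (fun z : ℍ => (z : ℂ)) '' {z : ℍ | z ∈ D ∧ f z ∈ A}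
  · rw [Set.indicator_of_mem hz]
    obtain ⟨w, hw, rfl⟩ := hz
    have hz2 : (w : ℂ) ∈ {z | z ∈ HP ∧ f z ∈ A} := ⟨w.im_pos, hw.2⟩
    rw [Set.indicator_of_mem hz2, h1 w hw.1, one_mul]
  · rw [Set.indicator_of_notMem hz]
    exact bot_le

lemma exists_cut {U K : Set ℂ} (hU : IsOpen U) (hK : IsCompact K) (hKU : K ⊆ U) :
    ∃ g : ℂ → ℝ, Test U g ∧ (∀ x ∈ K, g x = 1) ∧ (∀ x, g x ≤ 1) := by
  obtain ⟨δ, hδ, hδB⟩ := hK.exists_cthickening_subset_open hU hKU
  obtain ⟨f, hf1, hf2, hf3⟩ := exists_contMDiff_support_eq_eq_one_iff (modelWithCornersSelf ℝ ℂ)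
    (Metric.isOpen_thickening (δ := δ) (E := K)) hK.isClosed
    (Metric.self_subset_thickening hδ K)
  have hs : tsupport f ⊆ Metric.cthickening δ K := by
    apply closure_minimal _ Metric.isClosed_cthickening
    rw [hf3.1]
    exact Metric.thickening_subset_cthickening _ _
  refine ⟨f, ⟨hf1.contDiff, ?_, hs.trans hδB, fun x => ?_⟩, fun x hx => ?_, fun x => ?_⟩
  · exact (hK.cthickening (r := δ)).of_isClosed_subset (isClosed_tsupport f) hs
  · exact (hf2 ⟨x, rfl⟩).1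
  · exact (hf3.2 x).1 hx
  · exact (hf2 ⟨x, rfl⟩).2

end Pool.Agent.U766.LL
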